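import Mathlib

set_option autoImplicit false

namespace Pool.Agent.Results.MP_49314d_al.NoUniversal

/-- A group is right-orderable if it has a total order invariant under right multiplication. -/
def RightOrderable (G : Type) [Group G] : Prop :=
  ∃ L : LinearOrder G, ∀ x y z : G, L.le x y → L.le (x * z) (y * z)

/-- The chain acted on: integers times rationals, ordered lexicographically. -/
abbrev X : Type := Lex (ℤ × ℚ)

/-- Fibrewise automorphism of `X`. -/
def fib (φ : ℤ → ℚ ≃o ℚ) : X ≃o X where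
  toFun p := toLex ((ofLex p).1, φ (ofLex p).1 (ofLex p).2)
  invFun p := toLex ((ofLex p).1, (φ (ofLex p).1).symm (ofLex p).2)
  left_inv p := by simp
  right_inv p := by simp
  map_rel_iff' := by
    intro p q
    rcases p with ⟨i, x⟩
    rcases q with ⟨j, y⟩
    show toLex (i, φ i x) ≤ toLex (j, φ j y) ↔ toLex (i, x) ≤ toLex (j, y)
    simp only [Prod.Lex.toLex_le_toLex]
    constructor
    · rintro (h | ⟨rfl, h⟩)
      · exact Or.inl h
      · exact Or.inr ⟨rfl, (φ i).le_iff_le.mp h⟩
    · rintro (h | ⟨rfl, h⟩)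
      · exact Or.inl h
      · exact Or.inr ⟨rfl, (φ i).le_iff_le.mpr h⟩

/-- The shift of the first coordinate. -/
def shift : X ≃o X where
  toFun p := toLex ((ofLex p).1 + 1, (ofLex p).2)
  invFun p := toLex ((ofLex p).1 - 1, (ofLex p).2)
  left_inv p := by simp
  right_inv p := by simp
  map_rel_iff' := by
    intro p q
    rcases p with ⟨i, x⟩
    rcases q with ⟨j, y⟩
    show toLex (i + 1, x) ≤ toLex (j + 1, y) ↔ toLex (i, x) ≤ toLex (j, y)
    simp [Prod.Lex.toLex_le_toLex]

theorem shift_pow (n : ℕ) (i : ℤ) (x : ℚ) :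
    (shift ^ n) (toLex (i, x)) = toLex (i + n, x) := by
  induction n generalizing i with
  | zero => simp
  | succ n ih =>
    rw [pow_succ]
    show (shift ^ n) (toLex (i + 1, x)) = _
    rw [ih]; congr 2; push_cast; ring

theorem rightOrderable_sub (H : Subgroup (X ≃o X)) : RightOrderable H := by
  classical
  haveI : Countable X := (inferInstance : Countable (ℤ × ℚ))
  obtain ⟨e, he⟩ := exists_surjective_nat X
  let F : H → Lex (ℕ → X) := fun g => toLex (fun n => ((g⁻¹ : H) : X ≃o X) (e n))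
  have hF : Function.Injective F := by
    intro g h hgh
    have h1 : ((g⁻¹ : H) : X ≃o X) = ((h⁻¹ : H) : X ≃o X) := by
      ext x
      obtain ⟨n, rfl⟩ := he x
      exact congrFun (toLex.injective hgh) n
    exact inv_injective (Subtype.ext h1)
  refine ⟨LinearOrder.lift' F hF, ?_⟩
  intro x y z hxy
  change F x ≤ F y at hxy
  change F (x * z) ≤ F (y * z)
  rcases hxy.eq_or_lt with h | h
  · rw [hF h]
  · apply le_of_lt
    obtain ⟨n, hn, hlt⟩ := h
    refine ⟨n, fun j hj => ?_, ?_⟩
    · have := hn j hj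
      show ((z⁻¹ : H) : X ≃o X) (((x⁻¹ : H) : X ≃o X) (e j)) =
        ((z⁻¹ : H) : X ≃o X) (((y⁻¹ : H) : X ≃o X) (e j))
      exact congrArg _ this
    · show ((z⁻¹ : H) : X ≃o X) (((x⁻¹ : H) : X ≃o X) (e n)) <
        ((z⁻¹ : H) : X ≃o X) (((y⁻¹ : H) : X ≃o X) (e n))
      exact ((z⁻¹ : H) : X ≃o X).lt_iff_lt.mpr hlt

/-- Translation by one in the fibre over zero. -/
def a : X ≃o X := fib fun i => if i = 0 then OrderIso.addRight (1 : ℚ) else OrderIso.refl ℚ

open Classical in
/-- Doubling in the fibres over the elements of `S`. -/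
noncomputable def b (S : Set ℕ) : X ≃o X := fib fun i =>
  if ∃ n ∈ S, i = (n : ℤ) then OrderIso.mulLeft₀ (2 : ℚ) (by norm_num) else OrderIso.refl ℚ

theorem comm_iff (S : Set ℕ) (n : ℕ) :
    (shift ^ n * a * (shift ^ n)⁻¹) * b S = b S * (shift ^ n * a * (shift ^ n)⁻¹) ↔ n ∉ S := by
  classical
  have hinv : ∀ (i : ℤ) (x : ℚ), (shift ^ n)⁻¹ (toLex (i, x)) = toLex (i - n, x) := by
    intro i x
    apply (shift ^ n).injective
    rw [shift_pow]
    show ((shift ^ n) * (shift ^ n)⁻¹) (toLex (i, x)) = _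
    rw [mul_inv_cancel]
    simp
  have hc : ∀ (i : ℤ) (x : ℚ), (shift ^ n * a * (shift ^ n)⁻¹) (toLex (i, x)) =
      toLex (i, if i = n then x + 1 else x) := by
    intro i x
    show (shift ^ n) (a ((shift ^ n)⁻¹ (toLex (i, x)))) = _
    rw [hinv]
    show (shift ^ n) (toLex (i - n, (if i - n = 0 then OrderIso.addRight (1 : ℚ)
      else OrderIso.refl ℚ) x)) = _
    rw [shift_pow]
    by_cases h : i = n
    · simp [h]
    · simp [h, sub_eq_zero]
  have hb : ∀ (i : ℤ) (x : ℚ), b S (toLex (i, x)) =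
      toLex (i, if ∃ m ∈ S, i = (m : ℤ) then 2 * x else x) := by
    intro i x
    show toLex (i, (if ∃ m ∈ S, i = (m : ℤ) then OrderIso.mulLeft₀ (2 : ℚ) (by norm_num)
      else OrderIso.refl ℚ) x) = _
    by_cases h : ∃ m ∈ S, i = (m : ℤ)
    · rw [if_pos h, if_pos h]; rfl
    · rw [if_neg h, if_neg h]; rfl
  constructor
  · intro h hn
    have h1 : (shift ^ n * a * (shift ^ n)⁻¹) (b S (toLex ((n : ℤ), (0 : ℚ)))) =
        b S ((shift ^ n * a * (shift ^ n)⁻¹) (toLex ((n : ℤ), (0 : ℚ)))) :=
      congrArg (fun f : X ≃o X => f (toLex ((n : ℤ), (0 : ℚ)))) h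
    have h2 : ∃ m ∈ S, (n : ℤ) = (m : ℤ) := ⟨n, hn, rfl⟩
    rw [hb, hc, hc, hb, if_pos h2, if_pos h2, if_pos rfl, if_pos rfl] at h1
    have h3 := congrArg (fun p : X => (ofLex p).2) h1
    norm_num at h3
  · intro hn
    ext p
    rcases p with ⟨i, x⟩
    show (shift ^ n * a * (shift ^ n)⁻¹) (b S (toLex (i, x))) =
        b S ((shift ^ n * a * (shift ^ n)⁻¹) (toLex (i, x)))
    rw [hb, hc, hc, hb]
    by_cases h : i = n
    · have h2 : ¬ ∃ m ∈ S, i = (m : ℤ) := by
        rintro ⟨m, hm, e⟩
        have : n = m := by exact_mod_cast (h.symm.trans e)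
        exact hn (this ▸ hm)
      simp only [if_neg h2]
    · simp only [if_neg h]

/-- The three-generator group attached to `S`. -/
noncomputable def grp (S : Set ℕ) : Subgroup (X ≃o X) := Subgroup.closure {shift, a, b S}

theorem grp_countable (S : Set ℕ) : Countable (grp S) := by
  have h : Group.FG (grp S) := Group.closure_finite_fg _
  obtain ⟨α, _, φ, hφ⟩ := Group.fg_iff_exists_freeGroup_hom_surjective_finite.mp h
  exact hφ.countable

/-- No countable group contains a copy of every countable right-orderable group. -/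
theorem result (U : Type) [Group U] [Countable U] :
    ∃ (G : Type) (_ : Group G), Countable G ∧ RightOrderable G ∧
      ∀ φ : G →* U, ¬ Function.Injective φ := by
  by_contra hcon
  push Not at hcon
  choose φ hφ using fun S : Set ℕ => hcon (grp S) inferInstance (grp_countable S)
    (rightOrderable_sub _)
  have m1 : ∀ S, shift ∈ grp S := fun S => Subgroup.subset_closure (by simp)
  have m2 : ∀ S, a ∈ grp S := fun S => Subgroup.subset_closure (by simp)
  have m3 : ∀ S, b S ∈ grp S := fun S => Subgroup.subset_closure (by simp)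
  let T : Set ℕ → U × U × U := fun S => (φ S ⟨_, m1 S⟩, φ S ⟨_, m2 S⟩, φ S ⟨_, m3 S⟩)
  have key : ∀ S n, ((T S).1 ^ n * (T S).2.1 * ((T S).1 ^ n)⁻¹) * (T S).2.2 =
      (T S).2.2 * ((T S).1 ^ n * (T S).2.1 * ((T S).1 ^ n)⁻¹) ↔ n ∉ S := by
    intro S n
    rw [← comm_iff]
    simp only [T, ← map_pow, ← map_inv, ← map_mul]
    rw [(hφ S).eq_iff, Subtype.ext_iff]
    simp
  have hT : Function.Injective T := by
    intro S S' h
    ext n
    have h1 := key S n
    rw [h, key S' n] at h1
    tauto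
  have hc : Countable (Set ℕ) := hT.countable
  obtain ⟨f, hf⟩ := exists_surjective_nat (Set ℕ)
  exact Function.cantor_surjective f hf

end Pool.Agent.Results.MP_49314d_al.NoUniversal
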